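import Mathlib

/-! Scalar step of the induction for MP_9999b5_co (MMS), helper15.
`s` is `T/m = T/(2k+T)`, so `T/k = 2s/(1-s)`, `T/(k+T) = 2s/(1+s)`.
`q = P(both negative)`, `r = P(both nonneg)`, `h = P(K heavy)`. -/

namespace Pool.Agent.Work.MP_9999b5_sc_h15

/-- the two level spectral inequality, `r` removed -/
theorem sp_zero (s q r h : ℝ) (hs : 0 < s) (hs3 : s < 1) (hq : 0 ≤ q) (hr : 0 ≤ r)
    (hh0 : 0 < h) (hh1 : h < 1) (hr1 : r ≤ 1)
    (SP : (1 - s ^ 2) * (q ^ 2 / h + r ^ 2 / (1 - h)) ≤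
      (q - r) ^ 2 + s - s * (1 + s) * (q + r)) :
    (1 - s ^ 2) * q ^ 2 ≤ h * (q ^ 2 - s * (1 + s) * q + s) := by
  have h1 : r ^ 2 ≤ r ^ 2 / (1 - h) := by
    rw [le_div_iff₀ (by linarith)]
    nlinarith [sq_nonneg r]
  have hs2 : 0 < 1 - s ^ 2 := by nlinarith
  have h2 : (1 - s ^ 2) * (q ^ 2 / h) ≤ q ^ 2 - s * (1 + s) * q + s := by
    have h3 : (1 - s ^ 2) * r ^ 2 ≤ (1 - s ^ 2) * (r ^ 2 / (1 - h)) :=
      mul_le_mul_of_nonneg_left h1 hs2.le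
    have h4 : (1 - s ^ 2) * (q ^ 2 / h + r ^ 2 / (1 - h)) =
        (1 - s ^ 2) * (q ^ 2 / h) + (1 - s ^ 2) * (r ^ 2 / (1 - h)) := by ring
    have h5 : s ^ 2 * r ^ 2 ≤ s ^ 2 * r := by
      have : r ^ 2 ≤ r := by nlinarith
      exact mul_le_mul_of_nonneg_left this (sq_nonneg s)
    have h6 : 0 ≤ q * r := mul_nonneg hq hr
    have h7 : 0 ≤ s * r := mul_nonneg hs.le hr
    nlinarith
  have h8 : (1 - s ^ 2) * q ^ 2 = h * ((1 - s ^ 2) * (q ^ 2 / h)) := by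
    field_simp
  rw [h8]
  exact mul_le_mul_of_nonneg_left h2 hh0.le

/-- the flow inequality on `k+T` points, `r` removed -/
theorem rf_zero (s q r h f : ℝ) (hs : 0 < s) (hr : 0 ≤ r) (hf : f ≤ 1)
    (RF : f * (1 + q - r) ≤ (1 - h - r) + 2 * s / (1 + s) * (h - q)) :
    f * (1 + q) * (1 + s) ≤ (1 - h) * (1 + s) + 2 * s * (h - q) := by
  have h1 : 0 ≤ (1 - f) * r := mul_nonneg (by linarith) hr
  have h2 : f * (1 + q) ≤ (1 - h) + 2 * s / (1 + s) * (h - q) := by nlinarith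
  have h3 : 0 < 1 + s := by linarith
  have h4 : f * (1 + q) * (1 + s) ≤ ((1 - h) + 2 * s / (1 + s) * (h - q)) * (1 + s) :=
    mul_le_mul_of_nonneg_right h2 h3.le
  have h5 : ((1 - h) + 2 * s / (1 + s) * (h - q)) * (1 + s) =
      (1 - h) * (1 + s) + 2 * s * (h - q) := by
    field_simp
  linarith

/-- general step, `T > k/3` : `q ≤ 11/20`. -/
theorem big_q (s q h f : ℝ) (hs : 1 / 7 ≤ s) (hs3 : s < 1 / 3)
    (hq1 : q ≤ 1)
    (SP0 : (1 - s ^ 2) * q ^ 2 ≤ h * (q ^ 2 - s * (1 + s) * q + s))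
    (RF0 : f * (1 + q) * (1 + s) ≤ (1 - h) * (1 + s) + 2 * s * (h - q))
    (F1 : s ≤ 3 / 17 → 9 / 49 ≤ f) (F2 : 3 / 17 < s → 1 / 5 ≤ f)
    (F3 : 1 / 5 ≤ s → 9 / 40 ≤ f) (F4 : 3 / 11 ≤ s → 1 / 4 ≤ f) :
    q ≤ 11 / 20 := by
  by_contra hcon
  push Not at hcon
  have hf0 : 0 ≤ f := by
    rcases le_or_gt s (3 / 17) with h1 | h1
    · linarith [F1 h1]
    · linarith [F2 h1]
  have hDq : 0 < q ^ 2 - s * (1 + s) * q + s := by nlinarith [mul_pos (show (0:ℝ) < s by linarith) (show (0:ℝ) < 1 + s by linarith)]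
  have hD55 : 0 < (121 / 400 : ℝ) + 9 / 20 * s - 11 / 20 * s ^ 2 := by nlinarith
  -- step A
  have hA : (1 - s ^ 2) * (121 / 400) ≤ h * (121 / 400 + 9 / 20 * s - 11 / 20 * s ^ 2) := by
    have hh : (1 - s ^ 2) * q ^ 2 / (q ^ 2 - s * (1 + s) * q + s) ≤ h := by
      rw [div_le_iff₀ hDq]; exact SP0
    have h2 : (1 - s ^ 2) * (121 / 400) / (121 / 400 + 9 / 20 * s - 11 / 20 * s ^ 2) ≤
        (1 - s ^ 2) * q ^ 2 / (q ^ 2 - s * (1 + s) * q + s) := by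
      rw [div_le_div_iff₀ hD55 hDq]
      have hs2 : 0 < 1 - s ^ 2 := by nlinarith
      have h3 : (121 / 400 : ℝ) * (q ^ 2 - s * (1 + s) * q + s) ≤
          q ^ 2 * (121 / 400 + 9 / 20 * s - 11 / 20 * s ^ 2) := by
        have h4 : q ^ 2 * (121 / 400 + 9 / 20 * s - 11 / 20 * s ^ 2) -
            (121 / 400 : ℝ) * (q ^ 2 - s * (1 + s) * q + s) =
            s * (q - 11 / 20) * ((9 / 20 - 11 / 20 * s) * (q + 11 / 20) + 121 / 400 * (1 + s)) := by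
          ring
        have h5 : 0 ≤ s * (q - 11 / 20) * ((9 / 20 - 11 / 20 * s) * (q + 11 / 20) + 121 / 400 * (1 + s)) := by
          apply mul_nonneg (mul_nonneg (by linarith) (by linarith))
          have : 0 ≤ (9 / 20 - 11 / 20 * s) * (q + 11 / 20) := mul_nonneg (by linarith) (by linarith)
          linarith
        linarith
      nlinarith [mul_le_mul_of_nonneg_left h3 hs2.le]
    have h3 := h2.trans hh
    rwa [div_le_iff₀ hD55] at h3
  -- step B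
  have hB : h * (1 - s) ≤ (1 + s) * (1 - 31 / 20 * f) - 11 / 10 * s := by
    have : 0 ≤ (q - 11 / 20) * ((1 + s) * f + 2 * s) :=
      mul_nonneg (by linarith) (by nlinarith)
    nlinarith
  -- step C
  have hC : (1 - s) * ((1 - s ^ 2) * (121 / 400)) ≤
      (121 / 400 + 9 / 20 * s - 11 / 20 * s ^ 2) * ((1 + s) * (1 - 31 / 20 * f) - 11 / 10 * s) := by
    have h1 := mul_le_mul_of_nonneg_left hA (show (0:ℝ) ≤ 1 - s by linarith)
    have h2 := mul_le_mul_of_nonneg_left hB hD55.le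
    nlinarith
  -- lower bounds of f
  have key : ∀ f0 : ℝ, f0 ≤ f →
      (1 - s) * ((1 - s ^ 2) * (121 / 400)) ≤
      (121 / 400 + 9 / 20 * s - 11 / 20 * s ^ 2) * ((1 + s) * (1 - 31 / 20 * f0) - 11 / 10 * s) := by
    intro f0 hf0'
    have h1 : (1 + s) * (1 - 31 / 20 * f) - 11 / 10 * s ≤ (1 + s) * (1 - 31 / 20 * f0) - 11 / 10 * s := by
      nlinarith
    exact hC.trans (mul_le_mul_of_nonneg_left h1 hD55.le)
  rcases le_or_gt s (3 / 17) with h1 | h1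
  · have := key _ (F1 h1)
    nlinarith [mul_nonneg (sub_nonneg.2 hs) (sub_nonneg.2 h1),
      mul_nonneg (mul_nonneg (sub_nonneg.2 hs) (sub_nonneg.2 h1)) (show (0:ℝ) ≤ s by linarith)]
  · rcases lt_or_ge s (1 / 5) with h2 | h2
    · have := key _ (F2 h1)
      nlinarith [mul_nonneg (sub_nonneg.2 h1.le) (sub_nonneg.2 h2.le),
        mul_nonneg (mul_nonneg (sub_nonneg.2 h1.le) (sub_nonneg.2 h2.le)) (show (0:ℝ) ≤ s by linarith)]
    · rcases lt_or_ge s (3 / 11) with h3 | h3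
      · have := key _ (F3 h2)
        nlinarith [mul_nonneg (sub_nonneg.2 h2) (sub_nonneg.2 h3.le),
          mul_nonneg (mul_nonneg (sub_nonneg.2 h2) (sub_nonneg.2 h3.le)) (show (0:ℝ) ≤ s by linarith)]
      · have := key _ (F4 h3)
        nlinarith [mul_nonneg (sub_nonneg.2 h3) (sub_nonneg.2 hs3.le),
          mul_nonneg (mul_nonneg (sub_nonneg.2 h3) (sub_nonneg.2 hs3.le)) (show (0:ℝ) ≤ s by linarith)]

/-- (QL) with `Lam = 8/5`, for `q ≤ 11/20`. -/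
theorem big_QL (s q h : ℝ) (hs : 0 < s) (hs3 : s < 1 / 3)
    (hqh : q ≤ h) (hq : q ≤ 11 / 20)
    (SP0 : (1 - s ^ 2) * q ^ 2 ≤ h * (q ^ 2 - s * (1 + s) * q + s)) :
    q - s ≤ 8 / 5 * (h - q) := by
  rcases le_or_gt q s with h1 | h1
  · nlinarith
  · have hD : 0 < q ^ 2 - s * (1 + s) * q + s := by nlinarith [mul_pos hs (show (0:ℝ) < 1 + s by linarith)]
    have hfac : 0 ≤ (8 + 5 * s * (1 + s)) * q - 13 * q ^ 2 - 5 * s := by
      have e1 : 0 ≤ s * (1 - s) * (3 - 5 * s) :=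
        mul_nonneg (mul_nonneg hs.le (by linarith)) (by linarith)
      have e2 : 0 ≤ (187 / 400 : ℝ) - 9 / 4 * s + 11 / 4 * s ^ 2 := by nlinarith
      -- concavity between s and 11/20
      have e3 : ((8 + 5 * s * (1 + s)) * q - 13 * q ^ 2 - 5 * s) * (11 / 20 - s) =
          (11 / 20 - q) * (s * (1 - s) * (3 - 5 * s)) +
          (q - s) * ((187 / 400 : ℝ) - 9 / 4 * s + 11 / 4 * s ^ 2) +
          13 * (q - s) * (11 / 20 - q) * (11 / 20 - s) := by ring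
      have e4 : 0 ≤ ((8 + 5 * s * (1 + s)) * q - 13 * q ^ 2 - 5 * s) * (11 / 20 - s) := by
        rw [e3]
        have a1 : 0 ≤ (11 / 20 - q) * (s * (1 - s) * (3 - 5 * s)) := mul_nonneg (by linarith) e1
        have a2 : 0 ≤ (q - s) * ((187 / 400 : ℝ) - 9 / 4 * s + 11 / 4 * s ^ 2) :=
          mul_nonneg (by linarith) e2
        have a3 : 0 ≤ 13 * (q - s) * (11 / 20 - q) * (11 / 20 - s) :=
          mul_nonneg (mul_nonneg (by linarith) (by linarith)) (by linarith)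
        linarith
      by_contra hc
      push Not at hc
      nlinarith
    have h2 : (13 * q - 5 * s) * (q ^ 2 - s * (1 + s) * q + s) ≤
        8 * h * (q ^ 2 - s * (1 + s) * q + s) := by
      have e5 : 8 * ((1 - s ^ 2) * q ^ 2) - (13 * q - 5 * s) * (q ^ 2 - s * (1 + s) * q + s) =
          (q - s) * ((8 + 5 * s * (1 + s)) * q - 13 * q ^ 2 - 5 * s) := by ring
      have e6 : 0 ≤ (q - s) * ((8 + 5 * s * (1 + s)) * q - 13 * q ^ 2 - 5 * s) :=
        mul_nonneg (by linarith) hfac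
      nlinarith
    have h3 : 13 * q - 5 * s ≤ 8 * h := le_of_mul_le_mul_right h2 hD
    linarith

/-- (HL) with `Lam = 8/5`. -/
theorem big_HL (s q h f : ℝ) (hs : 1 / 7 ≤ s) (hs3 : s < 1 / 3) (hq0 : 0 ≤ q) (hq : q ≤ 11 / 20)
    (RF0 : f * (1 + q) * (1 + s) ≤ (1 - h) * (1 + s) + 2 * s * (h - q))
    (F1 : s ≤ 3 / 17 → 9 / 49 ≤ f) (F2 : 3 / 17 < s → 1 / 5 ≤ f)
    (F3 : 1 / 5 ≤ s → 9 / 40 ≤ f) :
    8 / 5 * q ≤ (3 / 2 - s / 4) * (2 - h - q) := by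
  have key : ∀ f0 : ℝ, f0 ≤ f → f0 * (1 + q) * (1 + s) ≤ (1 - h) * (1 + s) + 2 * s * (h - q) := by
    intro f0 h0
    have : f0 * (1 + q) * (1 + s) ≤ f * (1 + q) * (1 + s) := by
      have h1 : 0 ≤ (1 + q) * (1 + s) := mul_nonneg (by linarith) (by linarith)
      nlinarith [mul_le_mul_of_nonneg_right h0 h1]
    linarith
  have hth : 0 < 3 / 2 - s / 4 := by linarith
  have h1s : 0 < 1 - s := by linarith
  -- it suffices after multiplication by 1 - s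
  suffices hS : 8 / 5 * q * (1 - s) ≤ (3 / 2 - s / 4) * ((2 - h - q) * (1 - s)) by
    have : (8 / 5 * q) * (1 - s) ≤ ((3 / 2 - s / 4) * (2 - h - q)) * (1 - s) := by linarith
    exact le_of_mul_le_mul_right this h1s
  have main : ∀ f0 : ℝ, f0 ≤ f →
      (3 / 2 - s / 4) * ((2 - q) * (1 - s) - (1 + s) * (1 - f0 * (1 + q)) + 2 * s * q) ≤
      (3 / 2 - s / 4) * ((2 - h - q) * (1 - s)) := by
    intro f0 h0
    apply mul_le_mul_of_nonneg_left _ hth.le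
    nlinarith [key f0 h0]
  rcases le_or_gt s (3 / 17) with h1 | h1
  · refine le_trans ?_ (main _ (F1 h1))
    nlinarith [mul_nonneg (sub_nonneg.2 hs) (sub_nonneg.2 h1), mul_nonneg hq0 (sub_nonneg.2 hs),
      mul_nonneg (sub_nonneg.2 hq) (sub_nonneg.2 hs), mul_nonneg (sub_nonneg.2 hq) (sub_nonneg.2 h1),
      mul_nonneg hq0 (sub_nonneg.2 h1)]
  · rcases lt_or_ge s (1 / 5) with h2 | h2
    · refine le_trans ?_ (main _ (F2 h1))
      nlinarith [mul_nonneg (sub_nonneg.2 h1.le) (sub_nonneg.2 h2.le), mul_nonneg hq0 (sub_nonneg.2 h1.le),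
        mul_nonneg (sub_nonneg.2 hq) (sub_nonneg.2 h1.le), mul_nonneg (sub_nonneg.2 hq) (sub_nonneg.2 h2.le),
        mul_nonneg hq0 (sub_nonneg.2 h2.le)]
    · refine le_trans ?_ (main _ (F3 h2))
      nlinarith [mul_nonneg (sub_nonneg.2 h2) (sub_nonneg.2 hs3.le), mul_nonneg hq0 (sub_nonneg.2 h2),
        mul_nonneg (sub_nonneg.2 hq) (sub_nonneg.2 h2), mul_nonneg (sub_nonneg.2 hq) (sub_nonneg.2 hs3.le),
        mul_nonneg hq0 (sub_nonneg.2 hs3.le),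
        mul_nonneg (mul_nonneg (sub_nonneg.2 hq) (sub_nonneg.2 hs3.le)) (show (0:ℝ) ≤ s by linarith)]

/-- small case `T ≤ k/3` (full MMS on `k+T` points, `f = T/(k+T)`): `q ≤ 1/2`. -/
theorem small_q (s q h : ℝ) (hs : 0 < s) (hs3 : s ≤ 1 / 7) (hq1 : q ≤ 1)
    (SP0 : (1 - s ^ 2) * q ^ 2 ≤ h * (q ^ 2 - s * (1 + s) * q + s))
    (RF1 : 4 * s * q ≤ (1 - h) * (1 - s)) : q ≤ 1 / 2 := by
  by_contra hcon
  push Not at hcon
  have hDq : 0 < q ^ 2 - s * (1 + s) * q + s := by nlinarith [mul_pos hs (show (0:ℝ) < 1 + s by linarith)]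
  have h1 : h * (1 - s) ≤ (1 - s) - 4 * s * q := by linarith
  have h2 : (1 - s ^ 2) * q ^ 2 * (1 - s) ≤
      ((1 - s) - 4 * s * q) * (q ^ 2 - s * (1 + s) * q + s) := by
    have e1 := mul_le_mul_of_nonneg_right SP0 (show (0:ℝ) ≤ 1 - s by linarith)
    have e2 := mul_le_mul_of_nonneg_right h1 hDq.le
    nlinarith
  nlinarith [mul_pos hs (sub_pos.2 hcon), mul_pos (mul_pos hs (sub_pos.2 hcon)) (show (0:ℝ) < q by linarith),
    mul_pos hs hs, mul_pos (mul_pos hs hs) hs, mul_pos (mul_pos hs hs) (show (0:ℝ) < q by linarith),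
    mul_pos (mul_pos hs hs) (sub_pos.2 hcon),
    mul_pos (mul_pos (mul_pos hs hs) hs) (show (0:ℝ) < q by linarith)]

/-- small case, (QL) with `Lam = 3/2`. -/
theorem small_QL (s q h : ℝ) (hs : 0 < s) (hs3 : s ≤ 1 / 7) (hqh : q ≤ h) (hq : q ≤ 1 / 2)
    (SP0 : (1 - s ^ 2) * q ^ 2 ≤ h * (q ^ 2 - s * (1 + s) * q + s)) :
    q - s ≤ 3 / 2 * (h - q) := by
  rcases le_or_gt q s with h1 | h1
  · nlinarith
  · have hD : 0 < q ^ 2 - s * (1 + s) * q + s := by nlinarith [mul_pos hs (show (0:ℝ) < 1 + s by linarith)]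
    have hfac : 0 ≤ (3 + 2 * s * (1 + s)) * q - 5 * q ^ 2 - 2 * s := by
      have e1 : 0 ≤ s * (1 - s) * (1 - 2 * s) :=
        mul_nonneg (mul_nonneg hs.le (by linarith)) (by linarith)
      have e2 : 0 ≤ (1 / 4 : ℝ) - s + s ^ 2 := by nlinarith [sq_nonneg (s - 1 / 2)]
      have e3 : ((3 + 2 * s * (1 + s)) * q - 5 * q ^ 2 - 2 * s) * (1 / 2 - s) =
          (1 / 2 - q) * (s * (1 - s) * (1 - 2 * s)) +
          (q - s) * ((1 / 4 : ℝ) - s + s ^ 2) +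
          5 * (q - s) * (1 / 2 - q) * (1 / 2 - s) := by ring
      have e4 : 0 ≤ ((3 + 2 * s * (1 + s)) * q - 5 * q ^ 2 - 2 * s) * (1 / 2 - s) := by
        rw [e3]
        have a1 : 0 ≤ (1 / 2 - q) * (s * (1 - s) * (1 - 2 * s)) := mul_nonneg (by linarith) e1
        have a2 : 0 ≤ (q - s) * ((1 / 4 : ℝ) - s + s ^ 2) := mul_nonneg (by linarith) e2
        have a3 : 0 ≤ 5 * (q - s) * (1 / 2 - q) * (1 / 2 - s) :=
          mul_nonneg (mul_nonneg (by linarith) (by linarith)) (by linarith)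
        linarith
      by_contra hc
      push Not at hc
      nlinarith
    have h2 : (5 * q - 2 * s) * (q ^ 2 - s * (1 + s) * q + s) ≤
        3 * h * (q ^ 2 - s * (1 + s) * q + s) := by
      have e5 : 3 * ((1 - s ^ 2) * q ^ 2) - (5 * q - 2 * s) * (q ^ 2 - s * (1 + s) * q + s) =
          (q - s) * ((3 + 2 * s * (1 + s)) * q - 5 * q ^ 2 - 2 * s) := by ring
      have e6 : 0 ≤ (q - s) * ((3 + 2 * s * (1 + s)) * q - 5 * q ^ 2 - 2 * s) :=
        mul_nonneg (by linarith) hfac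
      nlinarith
    have h3 : 5 * q - 2 * s ≤ 3 * h := le_of_mul_le_mul_right h2 hD
    linarith

/-- small case, (HL) with `Lam = 3/2`. -/
theorem small_HL (s q h : ℝ) (hs : 0 < s) (hs3 : s ≤ 1 / 7) (hq0 : 0 ≤ q) (hq : q ≤ 1 / 2)
    (RF1 : 4 * s * q ≤ (1 - h) * (1 - s)) :
    3 / 2 * q ≤ (3 / 2 - s / 4) * (2 - h - q) := by
  have h1s : 0 < 1 - s := by linarith
  suffices hS : 3 / 2 * q * (1 - s) ≤ (3 / 2 - s / 4) * ((2 - h - q) * (1 - s)) by
    have : (3 / 2 * q) * (1 - s) ≤ ((3 / 2 - s / 4) * (2 - h - q)) * (1 - s) := by linarith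
    exact le_of_mul_le_mul_right this h1s
  have h1 : (1 - q) * (1 - s) + 4 * s * q ≤ (2 - h - q) * (1 - s) := by nlinarith
  have h2 := mul_le_mul_of_nonneg_left h1 (show (0:ℝ) ≤ 3 / 2 - s / 4 by linarith)
  refine le_trans ?_ h2
  nlinarith [mul_nonneg hs.le hq0, mul_nonneg hs.le (sub_nonneg.2 hq), mul_nonneg (mul_nonneg hs.le hs.le) hq0,
    mul_nonneg (mul_nonneg hs.le hs.le) (sub_nonneg.2 hq)]

end Pool.Agent.Work.MP_9999b5_sc_h15
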